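import Pool.Agent.R358.FV.Ico

/-! Full versus rotational tetrahedral symmetry: the sets of f-vectors differ. -/

set_option autoImplicit false

namespace Pool.Agent.Results.MP_52b7e0_co.TetrahedralFVectors

open Set Pool.Agent.R358.FV

/-- the vertices of a regular octahedron: the points with one coordinate `1` or `-1` and the other
two coordinates `0` -/
def oct : Set V := {v | ∃ (i : Fin 3) (s : ℝ), (s = 1 ∨ s = -1) ∧ v = Pi.single i s}

/-- the vertices of a regular icosahedron: the cyclic permutations of `(0, ±1, ±φ)`, where `φ` is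
the golden ratio -/
def ico : Set V := {v | ∃ (s t : ℝ), (s = 1 ∨ s = -1) ∧ (t = 1 ∨ t = -1) ∧
  (v = ![0, s, t * ((1 + √5) / 2)] ∨ v = ![s, t * ((1 + √5) / 2), 0] ∨
    v = ![t * ((1 + √5) / 2), 0, s])}

/-- The three equalities do not all hold: some pair `(12, k)` with `k ≥ 20` is the f-vector of a
polytope symmetric under the rotation group of the tetrahedron, while a polytope with 12 vertices
symmetric under its full symmetry group has at most 14 facets. -/
theorem result :
    ¬ (fPairs (Sym tet) = fPairs (Rot tet) ∧ fPairs (Sym oct) = fPairs (Rot oct) ∧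
        fPairs (Sym ico) = fPairs (Rot ico)) ∧
      (∃ k : ℕ, 20 ≤ k ∧ (12, k) ∈ fPairs (Rot tet)) ∧
        ∀ k : ℕ, (12, k) ∈ fPairs (Sym tet) → k ≤ 14 := by
  have hle : ∀ k : ℕ, (12, k) ∈ fPairs (Sym tet) → k ≤ 14 := by
    intro k hk
    by_contra h
    exact full_not k (by omega) hk
  refine ⟨?_, rot_ge, hle⟩
  obtain ⟨k, hk, hmem⟩ := rot_ge
  rintro ⟨h, _, _⟩
  rw [← h] at hmem
  have := hle k hmem
  omega

end Pool.Agent.Results.MP_52b7e0_co.TetrahedralFVectors
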